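import Pool.Agent.U356.CM.MK4

/-!
# MP_c5be19_co: the largest complete class of matroids avoiding `M(K₄)`

Definitions. `MClass`, `Iso` (isomorphism of matroids), `IsComplete` (complete classes of finite
matroids: closed under isomorphism, restriction, contraction, duality, direct sum, truncation and
induction through directed graphs) are those of `Pool.Agent.Helper442.FE.Defs`. `MK4` is the cycle
matroid of the complete graph on four vertices (`Pool.Agent.U356.CM.MK4`): a set of edges of the
complete graph is independent if the graph with this edge set is acyclic. `K4Free` is the class of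
the finite matroids with no minor isomorphic to `MK4`.

The theorem: `K4Free` is a complete class, it contains no copy of `MK4`, and it contains every
complete class that contains no copy of `MK4`. So the largest complete class avoiding `M(K₄)` is
the class of the matroids with no `M(K₄)`-minor.

Idea of the proof. In terms of the rank function a minor `M(K₄)` of a principal extension
`M +_F e` either avoids `e`, or uses `e` (then `F` has rank one in the contraction and `e` can be
replaced by an element of `F`), or contracts `e`; in the last case either all the lines survive in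
`M`, or exactly two of the four lines become planes through `F`, their common point `p` lies in
`F`, and `M(K₄)` appears when `p` is contracted and replaced by another point of `F`. Induction
through bipartite graphs is a sequence of principal extensions, and induction through a general
directed graph is dual to it.
-/

open Set Pool.Agent.Helper442.FE Pool.Agent.U356.CM
open scoped Matroid

namespace Pool.Agent.Results.MP_c5be19_co.LargestCompleteClass

/-- The class of the (finite) matroids with no minor isomorphic to `M(K₄)`. -/
def K4Free : MClass := fun _ M => M.E.Finite ∧ ∀ N, N ≤m M → ¬ Iso N MK4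

theorem iso_refl {α : Type} (M : Matroid α) : Iso M M := ⟨Equiv.refl _, fun I => by simp⟩

theorem iso_symm {α β : Type} {M : Matroid α} {N : Matroid β} (h : Iso M N) : Iso N M := by
  obtain ⟨e, he⟩ := h
  refine ⟨e.symm, fun I => ?_⟩
  rw [he, ← image_comp e e.symm]
  simp

theorem k4Free_iff {α : Type} {M : Matroid α} : K4Free α M ↔ M.E.Finite ∧ ¬ HasK4 M := by
  constructor
  · rintro ⟨h1, h2⟩
    refine ⟨h1, fun h => ?_⟩
    obtain ⟨N, hN, hN'⟩ := h.exists_minor h1
    exact h2 N hN hN'
  · rintro ⟨h1, h2⟩
    refine ⟨h1, fun N hN hiso => h2 ?_⟩
    have hNf : N.E.Finite := h1.subset hN.subset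
    exact (hasK4_MK4.iso (Set.toFinite _) hNf (iso_symm hiso)).of_minor h1 hN

theorem isComplete_k4Free : IsComplete K4Free where
  finite h := h.1
  iso := by
    intro α β M N hiso h
    rw [k4Free_iff] at h ⊢
    have h2 : N.E.Finite := by
      obtain ⟨e, -⟩ := hiso
      have h1 : Finite M.E := h.1.to_subtype
      have h3 : Finite N.E := Finite.of_equiv _ e
      exact Set.toFinite _
    exact ⟨h2, fun h3 => h.2 (h3.iso h2 h.1 (iso_symm hiso))⟩
  restrict := by
    intro α M h A hA
    rw [k4Free_iff] at h ⊢
    exact ⟨h.1.subset hA, fun h3 => h.2 h3.of_restrict⟩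
  contract := by
    intro α M h A hA
    rw [k4Free_iff] at h ⊢
    exact ⟨h.1.subset sdiff_subset, fun h3 => h.2 (h3.of_contract h.1)⟩
  dual := by
    intro α M h
    rw [k4Free_iff] at h ⊢
    exact ⟨h.1, fun h3 => h.2 (h3.of_dual h.1)⟩
  directSum := by
    intro α β M N h h'
    rw [k4Free_iff] at h h' ⊢
    refine ⟨?_, fun h3 => ?_⟩
    · rw [Matroid.sum_ground]
      exact (h.1.image _).union (h'.1.image _)
    · rcases h3.of_sum h.1 h'.1 with h4 | h4
      · exact h.2 h4
      · exact h'.2 h4
  truncate := by
    intro α M T k h _ hT
    rw [k4Free_iff] at h ⊢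
    exact ⟨hT.1 ▸ h.1, fun h3 => h.2 (h3.of_truncation h.1 hT)⟩
  induce := by
    intro τ _ G M₀ N A h hN
    rw [k4Free_iff] at h ⊢
    exact ⟨Set.toFinite _, fun h3 => h.2 (h3.of_induced hN)⟩

/-- The class of the matroids with no `M(K₄)`-minor is the largest complete class that contains no
copy of `M(K₄)`. -/
theorem result :
    IsComplete K4Free ∧ (∀ (α : Type) (M : Matroid α), K4Free α M → ¬ Iso M MK4) ∧
    ∀ D : MClass, IsComplete D → (∀ (α : Type) (M : Matroid α), D α M → ¬ Iso M MK4) →
      ∀ (α : Type) (M : Matroid α), D α M → K4Free α M := by
  refine ⟨isComplete_k4Free, fun α M h => h.2 M Matroid.IsMinor.refl, ?_⟩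
  intro D hD hno α M hM
  refine ⟨hD.finite hM, ?_⟩
  rintro N ⟨A, B, rfl⟩ hiso
  have h1 : D α (M ／ A) := by
    rw [← Matroid.contract_inter_ground_eq]
    exact hD.contract hM _ inter_subset_right
  have h2 : D α (M ／ A ＼ B) := by
    rw [Matroid.delete_eq_restrict]
    exact hD.restrict h1 _ sdiff_subset
  exact hno α _ h2 hiso

end Pool.Agent.Results.MP_c5be19_co.LargestCompleteClass
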